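import Pool.Agent.Lib_helper27.ABIF.B.C1
import Pool.Agent.Lib_helper27.ABIF.B.C2a
import Pool.Agent.Lib_helper27.ABIF.B.C2b
import Pool.Agent.Lib_helper27.ABIF.B.C3
import Pool.Agent.Lib_helper27.ABIF.B.C4a
import Pool.Agent.Lib_helper27.ABIF.B.C4b
import Pool.Agent.Lib_helper27.ABIF.B.C5
import Pool.Agent.Lib_helper27.ABIF.B.C6
import Pool.Agent.Lib_helper27.ABIF.B.F1
import Pool.Agent.Lib_helper27.ABIF.B.F10a
import Pool.Agent.Lib_helper27.ABIF.B.F10b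
import Pool.Agent.Lib_helper27.ABIF.B.F11a
import Pool.Agent.Lib_helper27.ABIF.B.F11b
import Pool.Agent.Lib_helper27.ABIF.B.F12
import Pool.Agent.Lib_helper27.ABIF.B.F2a
import Pool.Agent.Lib_helper27.ABIF.B.F2b
import Pool.Agent.Lib_helper27.ABIF.B.F3
import Pool.Agent.Lib_helper27.ABIF.B.F4
import Pool.Agent.Lib_helper27.ABIF.B.F5
import Pool.Agent.Lib_helper27.ABIF.B.F6
import Pool.Agent.Lib_helper27.ABIF.B.F7
import Pool.Agent.Lib_helper27.ABIF.B.F8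
import Pool.Agent.Lib_helper27.ABIF.B.F9
import Pool.Agent.Lib_helper27.ABIF.B.G0
import Pool.Agent.Lib_helper27.ABIF.B.G1
import Pool.Agent.Lib_helper27.ABIF.B.G2
import Pool.Agent.Lib_helper27.ABIF.B.G3
import Pool.Agent.Lib_helper27.ABIF.B.G4
import Pool.Agent.Lib_helper27.ABIF.B.G5
import Pool.Agent.Lib_helper27.ABIF.B.G6a
import Pool.Agent.Lib_helper27.ABIF.B.G6b
import Pool.Agent.Lib_helper27.ABIF.B.N1
import Pool.Agent.Lib_helper27.ABIF.B.N2
import Pool.Agent.Lib_helper27.ABIF.B.N3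
import Pool.Agent.Lib_helper27.ABIF.B.N4
import Pool.Agent.Lib_helper27.ABIF.B.N5
import Pool.Agent.Lib_helper27.ABIF.B.N6
import Pool.Agent.Lib_helper27.ABIF.B.N7
import Pool.Agent.Lib_helper27.ABIF.B.P10
import Pool.Agent.Lib_helper27.ABIF.B.P11
import Pool.Agent.Lib_helper27.ABIF.B.P12
import Pool.Agent.Lib_helper27.ABIF.B.P1a
import Pool.Agent.Lib_helper27.ABIF.B.P1b
import Pool.Agent.Lib_helper27.ABIF.B.P2
import Pool.Agent.Lib_helper27.ABIF.B.P3
import Pool.Agent.Lib_helper27.ABIF.B.P4a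
import Pool.Agent.Lib_helper27.ABIF.B.P4b
import Pool.Agent.Lib_helper27.ABIF.B.P5
import Pool.Agent.Lib_helper27.ABIF.B.P6
import Pool.Agent.Lib_helper27.ABIF.B.P7a
import Pool.Agent.Lib_helper27.ABIF.B.P7b
import Pool.Agent.Lib_helper27.ABIF.B.P8
import Pool.Agent.Lib_helper27.ABIF.B.P9
import Pool.Agent.Lib_helper27.ABIF.B.S1
import Pool.Agent.Lib_helper27.ABIF.B.S2
import Pool.Agent.Lib_helper27.ABIF.B.S3
import Pool.Agent.Lib_helper27.ABIF.B.S3a
import Pool.Agent.Lib_helper27.ABIF.B.S3n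
import Pool.Agent.Lib_helper27.ABIF.B.S4
import Pool.Agent.Lib_helper27.ABIF.B.S4a
import Pool.Agent.Lib_helper27.ABIF.B.S5
import Pool.Agent.Lib_helper27.ABIF.B.T1
import Pool.Agent.Lib_helper27.ABIF.B.T1n
import Pool.Agent.Lib_helper27.ABIF.B.T2
import Pool.Agent.Lib_helper27.ABIF.B.T3
import Pool.Agent.Lib_helper27.ABIF.B.U1
import Pool.Agent.Lib_helper27.ABIF.B.U2

/-!
# All blocks together (MP_675993_lc)
-/
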