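import Pool.Agent.Lib_helper64.NPC.Blk.A10
import Pool.Agent.Lib_helper64.NPC.Blk.A11
import Pool.Agent.Lib_helper64.NPC.Blk.A12
import Pool.Agent.Lib_helper64.NPC.MainPH
import Pool.Agent.Lib_helper27.ABO.Fm

/-!
# Above every oracle, infinite polynomial hierarchy, every game kept: definitions (MP_675993_lc)

Paper: `ABI_Paper_helper27.md`.  Nearly everything about oracles is as in `Lib_helper64/NPC`, but
the families have no level: all positions have certificates.
-/

set_option autoImplicit false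

namespace Pool.Agent.ABI

open Pool.Agent.CK
open Pool.Agent.NPC (Lit St lw tw Cert Term Rst Comp res Stuck RS wt pw GoodRoot HBig te hx NC labs
  rv rq)
open Pool.Agent.ABO (Par Lvl lev CircF hits)
open Pool.Agent.TD.IS (PosI Stg patchI simI)
open Pool.Agent.TD (Lam dd)

/-- strings -/
abbrev Str : Type := List Bool

/-! ## Families -/

/-- A local family of oracles: free slots `R` with label sets `H`, the oracle `F ω` for the state
`ω`. -/
structure Fam where
  /-- free slots -/
  R : Finset Str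
  /-- hidden labels -/
  H : Str → Finset Str
  /-- the oracles -/
  F : St → Lang
  hH : ∀ r, ∀ l ∈ H r, l.length = r.length
  free : ∀ r ∈ R, ∀ l : Str, l.length = r.length → ∀ ω,
    F ω (saddr r l true) = (decide (l ∈ H r) && ω (r, l))
  cert : ∀ ω w, ∃ T : Finset Lit, (∀ p ∈ T, p.1 ∈ R ∧ p.2 ∈ H p.1) ∧
    tw T ≤ w.length ∧ Cert (fun ω => F ω w) ω T

/-- The oracles of `B` are oracles of `A`, except on the positions in `E`. -/
def Sub (E : Set Str) (B A : Fam) : Prop :=
  B.R ⊆ A.R ∧ (∀ r ∈ B.R, B.H r ⊆ A.H r) ∧ ∃ g : St → St, (∀ ω, ∀ w ∉ E, B.F ω w = A.F (g ω) w) ∧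
    ∀ r ∈ B.R, ∀ l ∈ B.H r, ∀ ω, g ω (r, l) = ω (r, l)

/-- The question `q` about `NL i` is equivalent to the state of `r` being nonempty, for states
inside `S`. -/
def HGood (A : Fam) (i : ℕ) (r q : Str) (S : Finset Str) : Prop :=
  S ⊆ A.H r ∧ ∀ ω : St, (∀ l ∈ A.H r, ω (r, l) = true → l ∈ S) →
    (NL i (A.F ω) q = true ↔ ∃ l ∈ S, ω (r, l) = true)

/-- the reduction `m.2` to the language `m.1` is wrong on `u` in all oracles of the family -/
def Wrong (A : Fam) (m : ℕ × ℕ) (u : Str) : Prop :=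
  ∀ ω, PL m.2 (join (A.F ω) (NL m.1 (A.F ω))) u ≠ V (A.F ω) u

/-- the reduction is wrong on `u` whenever the state of `u` is `T` -/
def WrongAt (A : Fam) (m : ℕ × ℕ) (u : Str) (T : Finset Str) : Prop :=
  ∀ ω : St, (∀ l ∈ A.H u, ω (u, l) = decide (l ∈ T)) →
    PL m.2 (join (A.F ω) (NL m.1 (A.F ω))) u ≠ V (A.F ω) u

/-! ## Keys -/

/-- The key of a position: the size of `(|z| + 2) ^ (2 e)` for a table position. -/
noncomputable def key2 (w : Str) : ℕ := match tdec w with
  | some p => min w.length ((p.1.2.length + 2) ^ (2 * p.1.1))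
  | none => w.length

/-- `O'` agrees with `O` on the positions with `key2` below `N`. -/
def Ext2 (N : ℕ) (O O' : Lang) : Prop := ∀ w, key2 w < N → O' w = O w

/-- The positions at which oracles may be changed below `N`. -/
def PosBd (N : ℕ) : Set Str :=
  {w | ∃ r l : Str, r.length = l.length ∧ 2 * r.length + 2 < N ∧ w = saddr r l true} ∪ {w | ∃ (e : ℕ) (z : Str) (b : ℕ) (c : Bool), 2 ≤ e ∧
    (z.length + 2) ^ (2 * e) < N ∧ b < N ∧ w = taddr e z b c}

/-- adequate indices -/
def Adq (e : ℕ) : Prop :=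
  8 * ((2 * iN e + 3) * (iC e + 3) * (iM e + 3)) ≤ e ∧ (ia e + 2) ^ (2 * (iC e + 3)) ≤ 2 ^ e

/-- the pairs that are treated in an epoch with `J` stages -/
def PairIn (J : ℕ) (m : ℕ × ℕ) : Prop := 4 * ((m.1 + 2) * (m.2 + 2)) ≤ J

/-- the pair of an index -/
def pr (e : ℕ) : ℕ × ℕ := (iC e, iM e)

/-- The entry `(e, z)` is correct, and its correctness is decided below `N`. -/
def GoodN (N : ℕ) (O : Lang) (e : ℕ) (z : Str) : Prop :=
  ∃ q : Str, (q.length + 2) ^ (iC e + 2) ≤ N ∧ (z.length + 2) ^ (iN e + 2) ≤ N ∧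
    (q.length + 2) ^ (iC e + 2) ≤ alen e z ∧
    (∀ b c, O (taddr e z b c) = bit q (b, c)) ∧ NL (iC e) O q = NL (iN e) O z

/-- The pair `m` is killed, and this is decided below `N`. -/
def KilN (N : ℕ) (O : Lang) (m : ℕ × ℕ) : Prop :=
  ∃ x : Str, (x.length + 2) ^ ((m.2 + 2) * (m.1 + 2)) ≤ N ∧
    PL m.2 (join O (NL m.1 O)) x ≠ V O x

/-! ## Epochs: `J` stages, the first length is `N`, stage `j` works below `N ^ 2 ^ j` -/

/-- the bound of stage `j` -/
def Lj (N j : ℕ) : ℕ := N ^ 2 ^ j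

/-- the slots of the epoch -/
noncomputable def Us (J N : ℕ) : Finset Str :=
  ((List.finite_length_le Bool (Lj N J)).toFinset).filter fun r =>
    N ≤ 2 * r.length + 2 ∧ 2 * r.length + 2 < Lj N J

/-- the class of labels of length `b` with prefix `κ` in `S` -/
def cl (b : ℕ) (κ : Str) (S : Finset Str) : Finset Str := S.filter fun l => l.take (b / 4) = κ

/-- the density of the hidden sets -/
noncomputable def et (J b : ℕ) : ℝ := (1 / 2) ^ te J b

/-- slot size for the entry `(e, z)` -/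
def sz (N e : ℕ) (z : Str) : ℕ := max N (NPC.sl e z)

/-- the entry `(e, z)` belongs to the batch of stage `j` -/
def InBatch (J N j e : ℕ) (z : Str) : Prop :=
  Adq e ∧ PairIn J (pr e) ∧ N ≤ (z.length + 2) ^ (2 * e) ∧ (z.length + 2) ^ (2 * e) < Lj N J ∧
    Lj N j ≤ alen e z ∧ (alen e z < Lj N (j + 1) ∨ j + 1 = J)

/-- the entry `(e, z)` has been treated before stage `j` -/
def Done (J N j e : ℕ) (z : Str) : Prop :=
  Adq e ∧ PairIn J (pr e) ∧ N ≤ (z.length + 2) ^ (2 * e) ∧ (z.length + 2) ^ (2 * e) < Lj N J ∧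
    (alen e z < Lj N j ∨ J ≤ j)

/-- The family before stage `j` of an epoch that starts with the oracle `O`; `Os` is the initial
oracle, `Kd` the set of killed pairs. -/
structure Ep (Os O : Lang) (J N j : ℕ) (Kd : Set (ℕ × ℕ)) (A : Fam) : Prop where
  hU : A.R ⊆ Us J N
  cnt : ∀ b, N ≤ 2 * b + 2 → 2 * b + 2 < Lj N J →
    2 ^ b ≤ (Lj N j) ^ 20 * (A.R.filter fun r => r.length = b).card
  cls : ∀ r ∈ A.R, ∀ κ : Str, κ.length = r.length / 4 →
    2 ^ hx J j r.length ≤ (cl r.length κ (A.H r)).card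
  ext : ∀ ω, Ext2 N O (A.F ω)
  ins : ∀ ω w, A.F ω w ≠ Os w → w ∈ PosBd (Lj N J)
  good : ∀ e z, Done J N j e z → pr e ∉ Kd → ∀ ω, GoodN (Lj N j) (A.F ω) e z
  kil : ∀ m ∈ Kd, ∃ x : Str, (x.length + 2) ^ ((m.2 + 2) * (m.1 + 2)) ≤ Lj N j ∧ Wrong A m x

/-! ## The law of the states -/

/-- The law of the state of a slot with hidden set `H` and density `η`; `θs` are the probabilities
to stay alive in the remaining stages. -/
noncomputable def gl (η : ℝ) : List ℝ → Finset Str → Finset Str → ℝ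
  | [], H, S => if S ⊆ H then η ^ S.card * (1 - η) ^ (H.card - S.card) else 0
  | θ :: θs, H, S => ∑ H' ∈ H.powerset, η ^ H'.card * (1 - η) ^ (H.card - H'.card) *
      ((1 - θ) * (if S = H' then 1 else 0) + θ * gl η θs H' S)

/-- the probabilities for the stages `j, ..., J - 1` -/
noncomputable def ths (J N j : ℕ) : List ℝ :=
  (List.range (J - j)).map fun i => 1 / (Lj N (j + i) : ℝ) ^ 8

section law

variable {ι Λ : Type} [Fintype ι] [DecidableEq ι] [DecidableEq Λ]

/-- expectation of `f S` for a random state `S` with independent components of law `p r`, inside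
`H r` -/
noncomputable def EX (p : ι → Finset Λ → ℝ) (H : ι → Finset Λ) (f : (ι → Finset Λ) → ℝ) : ℝ :=
  ∑ S ∈ Fintype.piFinset fun r => (H r).powerset, (∏ r, p r (S r)) * f S

/-- What is used about the law of one slot: it is a probability distribution on the subsets of
`H`; given the labels in `K`, every other label has probability at most `η`; every assignment on
`K` has probability at least `(η / 2) ^ |K|`. -/
structure Law (p : Finset Λ → ℝ) (H : Finset Λ) (η : ℝ) : Prop where
  nonneg : ∀ S, 0 ≤ p S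
  sum : ∑ S ∈ H.powerset, p S = 1
  up : ∀ (K : Finset Λ) (s : Λ → Bool) (x : Λ), x ∉ K →
    ∑ S ∈ H.powerset.filter (fun S => (∀ l ∈ K, (l ∈ S ↔ s l = true)) ∧ x ∈ S), p S ≤
      η * ∑ S ∈ H.powerset.filter (fun S => ∀ l ∈ K, (l ∈ S ↔ s l = true)), p S
  low : ∀ (K : Finset Λ) (s : Λ → Bool), (∀ l ∈ K, s l = true → l ∈ H) →
    (η / 2) ^ K.card ≤ ∑ S ∈ H.powerset.filter (fun S => ∀ l ∈ K, (l ∈ S ↔ s l = true)), p S

/-- the state `S` outside `U`, the set `h` of literals on `U` -/
def pat (U : Finset ι) (S : ι → Finset Λ) (h : Finset (ι × Λ)) : ι → Finset Λ := fun r =>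
  if r ∈ U then (h.filter fun x => x.1 = r).image Prod.snd else S r

end law

/-- the law of the states before stage `j` -/
noncomputable def lawA (J N j : ℕ) (A : Fam) (r : {r // r ∈ Us J N}) : Finset Str → ℝ :=
  gl (et J r.1.length) (ths J N j) (A.H r.1)

/-- a state of the slots in `U` as a state -/
def stf {U : Finset Str} (S : {r // r ∈ U} → Finset Str) : St := fun p =>
  if h : p.1 ∈ U then decide (p.2 ∈ S ⟨p.1, h⟩) else false

open Classical in
/-- the probability that the adversary `A` has at least `w` hits -/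
noncomputable def Risk (J N j : ℕ) (F : Fam) {s : ℕ} (A : X s → DT Str) (w : ℝ) : ℝ :=
  EX (lawA J N j F) (fun r => F.H r.1) fun S =>
    if w ≤ (hits (fun _ => [true]) A (F.F (stf S)) : ℝ) then 1 else 0

/-- number of wins: the fraction `v j + x` -/
noncomputable def thr (P : Par) (j : ℕ) (x : ℝ) : ℝ := (P.v j + x) * 2 ^ (P.G j).s

/-- level of the game `j` -/
noncomputable def lv (P : Par) (j : ℕ) : ℕ := lev P (Sum.inr j)

/-- the game `j` is concerned by the epoch -/
def Conc (P : Par) (n0 J N j : ℕ) : Prop :=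
  n0 ≤ lv P j ∧ N ≤ dd (lv P j) ∧ lv P j < 8 * Lj N J

/-- For all games that are concerned and all circuits of size `2 ^ u n`, `n` the level: the
probability of at least the fraction `v + x n` of wins is at most `2 ^ (- B n)`. -/
def RB (P : Par) (n0 J N j : ℕ) (F : Fam) (u : ℕ → ℕ) (x : ℕ → ℝ) (B : ℕ → ℕ) : Prop :=
  ∀ g, Conc P n0 J N g → ∀ A ∈ CircF (P.G g) (2 ^ u (lv P g)) (dd (lv P g)),
    Risk J N j F A (thr P g (x (lv P g))) ≤ (1 / 2) ^ B (lv P g)

/-- For a single oracle. -/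
def DB (P : Par) (n0 : ℕ) (O : Lang) (u : ℕ → ℕ) (x : ℕ → ℝ) : Prop :=
  ∀ g, n0 ≤ lv P g → ∀ A ∈ CircF (P.G g) (2 ^ u (lv P g)) (dd (lv P g)),
    (hits (fun _ => [true]) A O : ℝ) < thr P g (x (lv P g))

/-! ## Numbers of a level -/

/-- bound for the number of stages that concern the level -/
def Kn (n : ℕ) : ℕ := 2 * Nat.log 2 (Lam n) + 2
/-- unit for exponents -/
def Lb (n : ℕ) : ℕ := Lam n + 32 * Kn n + 64
/-- exponent of the size of circuits at the global stage `k` -/
def uu (k n : ℕ) : ℕ := n / 4 + 20 * Lb n + 64 * Lb n * (Kn n - k)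
/-- advantage at the global stage `k` -/
noncomputable def eta (k n : ℕ) : ℝ := (1 / 2) ^ (Lam n + 2 + 5 * (Kn n - k))
/-- exponent of the density of the slots that are not small -/
def hh (n : ℕ) : ℕ := 8 * Lb n
/-- density of the slots that are not small -/
noncomputable def del (n : ℕ) : ℝ := (1 / 2) ^ hh n
/-- number of small literals -/
def kap0 (n : ℕ) : ℕ := 2 ^ (n / 8 + 1)

/-- numerical conditions for a level -/
structure NumL (n : ℕ) : Prop where
  h16 : 16 ≤ n
  hLam : 16 ≤ Lam n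
  hdd : 64 * (n + 8) ^ 2 ≤ 2 ^ Lam n
  huu : uu 0 n + 16 * Lb n + 64 ≤ n
  hlog : Nat.log 2 (Lam n) ≤ n
  /-- large slots have small density -/
  hte : ∀ J, 1 ≤ J → 2 ^ J ≤ Lam n → ∀ b, n ≤ 16 * b → hh n ≤ te J b

/-- all classes of hidden labels of `r` are large (before the stage `j`) -/
def Big (J j : ℕ) (A : Fam) (r : Str) : Prop :=
  ∀ κ : Str, κ.length = r.length / 4 → 2 ^ hx J j r.length ≤ (cl r.length κ (A.H r)).card

end Pool.Agent.ABI
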