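import Pool.Agent.Lib_helper27.ABIF.Defs
import Pool.Agent.Lib_helper27.ABO.All

/-!
# Above every oracle, infinite polynomial hierarchy: further definitions (MP_675993_lc)
-/

set_option autoImplicit false

namespace Pool.Agent.ABI

open Pool.Agent.CK
open Pool.Agent.NPC (Lit St lw tw Cert Term Rst Comp res Stuck RS wt pw GoodRoot HBig te hx NC labs
  rv rq)
open Pool.Agent.ABO (Par Lvl lev CircF hits Fml Gate Circuit Game Hard Desc cst cTree gsz)
open Pool.Agent.TD.IS (PosI Stg patchI simI)
open Pool.Agent.TD (Lam dd)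

open Classical in
/-- the state of the old family for a state of the restricted family: alive slots are free -/
noncomputable def rst {U : Finset Str} (ρ : Rst {r // r ∈ U} Str) (ω : St) : St := fun p =>
  if h : p.1 ∈ U then
    (if (ρ ⟨p.1, h⟩).1 = true then ω p && decide (p.2 ∈ (ρ ⟨p.1, h⟩).2)
      else decide (p.2 ∈ (ρ ⟨p.1, h⟩).2))
  else false

/-- a state of the slots in `U` as a state -/
def est {U : Finset Str} (ω : {r // r ∈ U} × Str → Bool) : St := fun p =>
  if h : p.1 ∈ U then ω (⟨p.1, h⟩, p.2) else false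

/-- node function for the machine `i` -/
noncomputable def nf (A : Fam) (U : Finset Str) (i : ℕ) (w : Str)
    (ω : {r // r ∈ U} × Str → Bool) : Bool := join (A.F (est ω)) (NL i (A.F (est ω))) w

open Classical in
/-- the table entries `items` get the values `tv` -/
noncomputable def tabF (F : St → Lang) (items : Finset (ℕ × Str)) (tv : ℕ × Str → Str) (ω : St) :
    Lang := fun w => match tdec w with
  | none => F ω w
  | some p => if p.1 ∈ items then bit (tv p.1) p.2 else F ω w

open Classical in
/-- all slots in `U` are free, all labels are allowed -/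
noncomputable def startF (O : Lang) (U : Finset Str) (ω : St) : Lang := fun w => match sdec w with
  | none => O w
  | some p => if p.1 ∈ U then p.2.2 && ω (p.1, p.2.1) else O w

/-- the oracle that codes `R`: `00w`, `|w|` odd, and `01w0`, `|w|` even -/
def codeR (R : Lang) : Lang := fun w => match w with
  | false :: false :: v => v.length % 2 == 1 && R v
  | false :: true :: v => v.length % 2 == 1 && (v.getLast? == some false && R v.dropLast)
  | _ => false

open Classical in
/-- the data of a batch of entries `items`; the value of the entry `it` for the seed `q` is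
`val q it` -/
noncomputable def stB {Qt : Type} (items : Finset (ℕ × Str)) (val : Qt → ℕ × Str → Str) :
    Stg {it // it ∈ items} Qt ({it // it ∈ items} × (ℕ × Bool)) where
  ps w := match tdec w with
    | none => none
    | some p => if h : p.1 ∈ items then some (PosI.dir ⟨p.1, h⟩ (⟨p.1, h⟩, p.2)) else none
  ln z := Encodable.encode z.1
  rd q i := bit (val q i.1.1) i.2
  rz _ _ := false

open Classical in
/-- G0: does the adversary win? -/
noncomputable def winA (J N : ℕ) (F : Fam) {s : ℕ} (A : X s → DT Str)
    (S : {r // r ∈ Us J N} → Finset Str) (x : X s) : Bool :=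
  decide ((A x).eval (F.F (stf S)) = [true])

/-- exponents at the stage `k + 1`: `uu (k + 1) n + c (Lb n)` -/
def ux (k c n : ℕ) : ℕ := uu (k + 1) n + c * Lb n

/-- a good slot for the pair `m` -/
def GoodSlot (L : ℕ) (A : Fam) (m : ℕ × ℕ) (r : Str) : Prop :=
  ∃ (q : Str) (S : Finset Str),
    (q.length + 2) ^ (m.1 + 2) ≤ (r.length + 2) ^ ((m.2 + 2) * (m.1 + 2)) ∧
    2 ^ (r.length / 2) ≤ L ^ 4 * S.card ∧ HGood A m.1 r q S

/-- the state of `r` can be fixed such that the reduction is wrong on `r` -/
def BadSlot (A : Fam) (m : ℕ × ℕ) (r : Str) : Prop :=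
  ∃ T : Finset Str, (T = ∅ ∨ ∃ l ∈ A.H r, T = {l}) ∧ WrongAt A m r T

/-- class of an entry: pair and slot size -/
noncomputable def clsI (N : ℕ) (it : ℕ × Str) : (ℕ × ℕ) × ℕ := (pr it.1, sz N it.1 it.2)

/-- values of entries: a slot for every class -/
abbrev QtC (Cs : Finset ((ℕ × ℕ) × ℕ)) (Gd : (ℕ × ℕ) × ℕ → Finset Str) : Type :=
  (c : {c // c ∈ Cs}) → {r // r ∈ Gd c.1}

open Classical in
/-- the value of the entry: the question for the slot of the class -/
noncomputable def valC {Cs : Finset ((ℕ × ℕ) × ℕ)} {Gd : (ℕ × ℕ) × ℕ → Finset Str} (N : ℕ)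
    (qu : (ℕ × ℕ) × ℕ → Str → Str) (q : QtC Cs Gd) (it : ℕ × Str) : Str :=
  if h : clsI N it ∈ Cs then qu (clsI N it) (q ⟨_, h⟩).1 else []

end Pool.Agent.ABI
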