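import Pool.Agent.Lib_helper27.ABIF.Stage
import Pool.Agent.Lib_helper27.ABO.Step

/-!
# One epoch
-/

set_option autoImplicit false

namespace Pool.Agent.ABI

open Pool.Agent.CK
open Pool.Agent.NPC (Lit St lw tw Cert Term Rst Comp res Stuck RS wt pw GoodRoot HBig te hx NC labs
  rv rq)
open Pool.Agent.ABO (Par Lvl lev CircF hits Fml Gate Circuit Game Hard Desc cst cTree gsz)
open Pool.Agent.TD.IS (PosI Stg patchI simI)
open Pool.Agent.TD (Lam dd)

theorem uu_anti' {k k' n : ℕ} (h : k ≤ k') : uu k' n ≤ uu k n := by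
  unfold uu
  have h1 : Kn n - k' ≤ Kn n - k := by omega
  have h2 := Nat.mul_le_mul_left (64 * Lb n) h1
  omega

theorem eta_mono' {k k' n : ℕ} (h : k ≤ k') : eta k n ≤ eta k' n := by
  unfold eta
  apply pow_le_pow_of_le_one (by norm_num) (by norm_num)
  omega

/-- the state between two epochs -/
structure EI (P : Par) (n0 J : ℕ) (O : Lang) (Kd : Set (ℕ × ℕ)) : Prop where
  ins : ∀ w, O w ≠ codeR P.R w → w ∈ PosBd (2 ^ 2 ^ J)
  kil : ∀ m ∈ Kd, KilN (2 ^ 2 ^ J) O m
  db : DB P n0 O (uu J) (eta J)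

theorem thr_mono {P : Par} {g : ℕ} {x y : ℝ} (h : x ≤ y) : thr P g x ≤ thr P g y := by
  unfold thr
  apply mul_le_mul_of_nonneg_right _ (by positivity)
  linarith

/-- `O` vanishes at the slots of the epoch -/
theorem slots_zero {P : Par} {n0 J : ℕ} {O : Lang} {Kd : Set (ℕ × ℕ)} (h : EI P n0 J O Kd)
    (r : Str) (hr : r ∈ Us J (2 ^ 2 ^ J)) (l : Str) (b : Bool) (hl : l.length = r.length) :
    O (saddr r l b) = false := by
  have h1 : codeR P.R (saddr r l b) = false :=
    (codeR_pos P.R).1 _ ⟨(r, (l, b)), sdec_saddr r l b hl.symm⟩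
  by_contra hcon
  have h2 : O (saddr r l b) ≠ codeR P.R (saddr r l b) := by rw [h1]; exact hcon
  have hrN : 2 ^ 2 ^ J ≤ 2 * r.length + 2 := (Finset.mem_filter.1 hr).2.1
  have hk := key2_saddr r l b hl.symm
  rcases h.ins _ h2 with ⟨r', l', h3, h4, h5⟩ | ⟨e, z, b', c, h3, h4, h5, h6⟩
  · have h6 := key2_saddr r' l' true h3
    rw [← h5, hk] at h6
    omega
  · have h7 := key2_taddr e z b' c h3
    rw [← h6, hk] at h7
    omega

/-- all stages of an epoch -/
theorem epoch_fam {P : Par} (hP : P.OK) {n0 : ℕ} (hn0 : ∀ n, n0 ≤ n → NumL n) {J : ℕ}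
    (hJ : 16 ≤ J) {O : Lang} {Kd : Set (ℕ × ℕ)} (h : EI P n0 J O Kd) :
    ∀ j ≤ J, ∃ (A : Fam) (Kd' : Set (ℕ × ℕ)), Kd ⊆ Kd' ∧
      Ep (codeR P.R) O J (2 ^ 2 ^ J) j Kd' A ∧
      (j < J → RB P n0 J (2 ^ 2 ^ J) j A (ux (J + j) 44) (fun n => 2 * eta (J + j) n)
        (fun n => 2 ^ ux (J + j) 54 n)) ∧
      (∀ i, j = i + 1 → RB P n0 J (2 ^ 2 ^ J) j A (ux (J + i) 0) (fun n => 18 * eta (J + i) n)
        (fun n => 2 ^ ux (J + i) 10 n)) := by
  obtain ⟨N, hN⟩ : ∃ N, N = 2 ^ 2 ^ J := ⟨_, rfl⟩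
  rw [← hN]
  have h2N : 2 ≤ N := by
    have := (ep_small hJ hN).1
    omega
  intro j
  induction j with
  | zero =>
    intro _
    obtain ⟨A, hR, hH, hF⟩ := start_fam O (Us J N)
    refine ⟨A, Kd, le_rfl, start_ep (codeR P.R) O J N hJ hN Kd (by rw [hN]; exact h.ins)
      (codeR_pos P.R).1 (by rw [hN]; exact h.kil) A hR hH hF, ?_, fun i hi => by omega⟩
    intro _
    exact step_start hn0 hJ hN O (fun r hr l b hl => slots_zero h r (by rw [← hN]; exact hr) l b hl)
      h.db A hR hH hF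
  | succ j ih =>
    intro hj
    obtain ⟨A, Kd1, hK1, hA, hr1, -⟩ := ih (by omega)
    obtain ⟨B, Kd2, hK2, hB, hr2⟩ := stage hP hn0 hJ hN (by omega) (codeR_pos P.R).2.1 hA
      (hr1 (by omega))
    refine ⟨B, Kd2, hK1.trans hK2, hB, ?_, ?_⟩
    · intro hj'
      refine rb_mono h2N ?_ ?_ ?_ hr2
      · intro g hg
        have h1 := stage_le hJ hN hg.2.1
        have h2 := uu_step (k := J + j + 1) (n := lv P g) (by omega)
        have h3 : J + j + 1 + 1 = J + (j + 1) + 1 := by omega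
        unfold ux
        rw [h3] at h2
        omega
      · intro g hg
        have h1 := stage_le hJ hN hg.2.1
        have h2 := eta_step (k := J + j) (n := lv P g) (by omega)
        have h3 : J + j + 1 = J + (j + 1) := by omega
        rw [h3] at h2
        have h4 := (eta_mono (J + j) (lv P g)).1
        show 18 * eta (J + j) (lv P g) ≤ 2 * eta (J + (j + 1)) (lv P g)
        rw [h2]
        linarith
      · intro g hg
        have h1 := stage_le hJ hN hg.2.1
        have h2 := uu_step (k := J + j + 1) (n := lv P g) (by omega)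
        have h3 : J + j + 1 + 1 = J + (j + 1) + 1 := by omega
        unfold ux
        rw [h3] at h2
        omega
    · intro i hi
      have : i = j := by omega
      subst this
      exact hr2

/-- the next epoch begins with the oracle of any state with these labels -/
theorem epoch_end {P : Par} (hP : P.OK) {n0 : ℕ} (hn0 : ∀ n, n0 ≤ n → NumL n) {J : ℕ}
    (hJ : 16 ≤ J) {O : Lang} {Kd Kd' : Set (ℕ × ℕ)} (h : EI P n0 J O Kd) {A : Fam}
    (hA : Ep (codeR P.R) O J (2 ^ 2 ^ J) J Kd' A)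
    (hRB : ∀ i, J = i + 1 → RB P n0 J (2 ^ 2 ^ J) J A (ux (J + i) 0)
      (fun n => 18 * eta (J + i) n) (fun n => 2 ^ ux (J + i) 10 n)) (x : Str) (hx : x ∈ A.R) :
    ∃ lab : Str → Str, (∀ κ : Str, κ.length = x.length / 4 →
        lab κ ∈ A.H x ∧ (lab κ).take κ.length = κ) ∧
      ∀ ω : St, (∀ p, ω p = true → p.1 = x ∧ ∃ κ : Str, κ.length = x.length / 4 ∧ lab κ = p.2) →
        Ext2 (2 ^ 2 ^ J) O (A.F ω) ∧ EI P n0 (2 * J) (A.F ω) Kd' ∧
        ∀ e z, Adq e → PairIn J (pr e) → pr e ∉ Kd' → 2 ^ 2 ^ J ≤ (z.length + 2) ^ (2 * e) →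
          (z.length + 2) ^ (2 * e) < 2 ^ 2 ^ (2 * J) → GoodN (2 ^ 2 ^ (2 * J)) (A.F ω) e z := by
  obtain ⟨N, hN⟩ : ∃ N, N = 2 ^ 2 ^ J := ⟨_, rfl⟩
  have hlast : Lj N J = 2 ^ 2 ^ (2 * J) := by rw [hN]; exact lj_last J
  have hsm := ep_small hJ hN
  have hNN : N ≤ Lj N J := by
    have h1 := lj_mono (N := N) (i := 0) (j := J) (by omega) (Nat.zero_le _)
    simpa [Lj] using h1
  rw [← hN] at hA hRB ⊢
  rw [← hlast]
  obtain ⟨i, hi⟩ : ∃ i, J = i + 1 := ⟨J - 1, by omega⟩
  have hr := hRB i hi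
  obtain ⟨lab, hlab, hend⟩ := step_end hP hn0 hJ hN (j := i) hi.symm A hA.hU x hx
    (fun κ hκ => hA.cls x hx κ hκ) hr
  refine ⟨lab, hlab, fun ω hω => ?_⟩
  have hext := hA.ext ω
  refine ⟨hext, ⟨?_, ?_, ?_⟩, ?_⟩
  · intro w hw
    rw [← hlast]
    exact hA.ins ω w hw
  · intro m hm
    obtain ⟨y, hy, hw⟩ := hA.kil m hm
    rw [← hlast]
    exact ⟨y, hy, hw ω⟩
  · -- the games
    intro g hg Adv hAdv
    have h2J : J + i + 1 = 2 * J := by omega
    by_cases hc1 : N ≤ dd (lv P g)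
    · by_cases hc2 : lv P g < 8 * Lj N J
      · have h1 := hend ω hω g ⟨hg, hc1, hc2⟩ Adv (by
          unfold ux
          rw [h2J, Nat.zero_mul, Nat.add_zero]
          exact hAdv)
        refine h1.trans_le (thr_mono ?_)
        have h3 := stage_le hJ hN hc1
        have h4 := eta_step (k := J + i) (n := lv P g) (by omega)
        rw [h2J] at h4
        have h5 := (eta_mono (J + i) (lv P g)).1
        rw [h4]
        linarith
      · refine few_ones P hP g (hn0 _ hg) (Lj N J) (by omega) (by omega) (A.F ω)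
          (fun w hw => hA.ins ω w hw) (2 * J) _ (eta_mono _ _).1 Adv hAdv
    · have h1 := h.db g hg Adv (ABO.circF_mono (Nat.pow_le_pow_right (by norm_num)
        (uu_anti' (by omega))) le_rfl hAdv)
      have h2 : hits (fun _ => [true]) Adv (A.F ω) = hits (fun _ => [true]) Adv O := by
        apply ABO.hits_eq
        intro y
        apply DT.eval_congr _ _ (ABO.circF_bounds hAdv y).2
        intro w hw
        apply hext
        have := key2_le w
        omega
      rw [h2]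
      exact h1.trans_le (thr_mono (eta_mono' (by omega)))
  · intro e z he hp hk h1 h2
    exact hA.good e z ⟨he, hp, h1, h2, Or.inr le_rfl⟩ hk ω

end Pool.Agent.ABI
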