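import Pool.Agent.Lib_helper27.ABIF.Next
import Pool.Agent.Lib_helper27.ABO.Main
import Pool.Agent.Lib_helper37.HDH.Num

/-!
# The limit and the final theorem
-/

set_option autoImplicit false

namespace Pool.Agent.ABI

open Pool.Agent.CK Pool.Agent.PHS
open Pool.Agent.NPC (Lit St lw tw Cert Term Rst Comp res Stuck RS wt pw GoodRoot HBig te hx NC labs
  rv rq)
open Pool.Agent.ABO (Par Lvl lev CircF hits Fml Gate Circuit Game Hard Desc cst cTree gsz)
open Pool.Agent.TD.IS (PosI Stg patchI simI)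
open Pool.Agent.TD (Lam dd)

/-- number of stages of the epoch `i` -/
def Jn (i : ℕ) : ℕ := 16 * 2 ^ i

theorem Jn_ge (i : ℕ) : 16 ≤ Jn i ∧ i ≤ Jn i := by
  have h1 : 1 ≤ 2 ^ i := Nat.one_le_two_pow
  have h2 : i < 2 ^ i := Nat.lt_two_pow_self
  unfold Jn
  omega

theorem Jn_succ (i : ℕ) : Jn (i + 1) = 2 * Jn i := by unfold Jn; ring

theorem Jn_mono {i j : ℕ} (h : i ≤ j) : Jn i ≤ Jn j :=
  Nat.mul_le_mul_left _ (Nat.pow_le_pow_right (by norm_num) h)

/-- first length of the epoch `i` -/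
def Nn (i : ℕ) : ℕ := 2 ^ 2 ^ Jn i

theorem Nn_mono : Monotone Nn := fun _ _ h =>
  Nat.pow_le_pow_right (by norm_num) (Nat.pow_le_pow_right (by norm_num) (Jn_mono h))

theorem Nn_ge (i : ℕ) : i ≤ Nn i := (Jn_ge i).2.trans (lt_two_two (Jn i)).le

/-- the codes of the strings -/
def posR (x : Str) : Str := if x.length % 2 = 1 then false :: false :: x
  else false :: true :: (x ++ [false])

/-- the start -/
theorem start_EI {P : Par} (hP : P.OK) {n0 : ℕ} (hn0 : ∀ n, n0 ≤ n → NumL n)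
    (h8 : 8 * Nn 0 ≤ n0) : EI P n0 (Jn 0) (codeR P.R) ∅ := by
  refine ⟨fun w hw => absurd rfl hw, fun m hm => absurd hm (Set.notMem_empty _), ?_⟩
  intro g hg Adv hAdv
  have h1 := ep_small (J := Jn 0) (Jn_ge 0).1 rfl
  exact few_ones P hP g (hn0 _ hg) (Nn 0) h1.1 (h8.trans hg) (codeR P.R)
    (fun w hw => absurd rfl hw) (Jn 0) _ (eta_mono _ _).1 Adv hAdv

/-- The limit of the epochs. -/
theorem limit_all (dh : DepthHierarchy) {P : Par} (hP : P.OK) :
    ∃ (n0 : ℕ) (O : Lang), (∀ x, O (posR x) = P.R x) ∧ (∀ g, NPC.phgoal g O) ∧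
      (∀ i j, NPC.Cor i j O → ∃ a, ∀ e, iC e = i → iM e = j → a ≤ ia e → Adq e →
        ∀ z, Good O e z) ∧
      ∀ g, n0 ≤ lv P g → 1 ≤ P.t g → ∀ C : Circuit, C.size ≤ P.t g →
        ((P.G g).count O C : ℝ) ≤ (P.v g + 1 / (P.t g : ℝ)) * 2 ^ (P.G g).s := by
  classical
  obtain ⟨n1, hn1⟩ := exists_numL
  obtain ⟨n0, hn0⟩ : ∃ n0, n0 = max n1 (8 * Nn 0) := ⟨_, rfl⟩
  have hnum : ∀ n, n0 ≤ n → NumL n := fun n hn => hn1 n (by
    have := le_max_left n1 (8 * Nn 0); omega)
  have h8 : 8 * Nn 0 ≤ n0 := by rw [hn0]; exact le_max_right _ _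
  -- the sequence
  choose J0 hJ0 using next_epoch dh
  have step : ∀ (i : ℕ) (s : {p : Lang × Set (ℕ × ℕ) // EI P n0 (Jn i) p.1 p.2}),
      ∃ s' : {p : Lang × Set (ℕ × ℕ) // EI P n0 (Jn (i + 1)) p.1 p.2},
        s.1.2 ⊆ s'.1.2 ∧ Ext2 (Nn i) s.1.1 s'.1.1 ∧
        (∀ e z, Adq e → PairIn (Jn i) (pr e) → pr e ∉ s'.1.2 →
          Nn i ≤ (z.length + 2) ^ (2 * e) → (z.length + 2) ^ (2 * e) < Nn (i + 1) →
          GoodN (Nn (i + 1)) s'.1.1 e z) ∧
        (J0 i.unpair.1 ≤ Jn i → ∀ O'' : Lang, (∀ w : Str, w.length < Nn (i + 1) →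
          O'' w = s'.1.1 w) → NPC.phgoal i.unpair.1 O'') := by
    intro i s
    obtain ⟨O', Kd', h1, h2, h3, h4, h5⟩ := hJ0 i.unpair.1 hP hnum (Jn_ge i).1 s.2
    have h6 : EI P n0 (Jn (i + 1)) O' Kd' := by rw [Jn_succ]; exact h3
    have h7 : Nn (i + 1) = 2 ^ 2 ^ (2 * Jn i) := by unfold Nn; rw [Jn_succ]
    refine ⟨⟨(O', Kd'), h6⟩, h1, h2, ?_, ?_⟩
    · rw [h7]; exact h4
    · rw [h7]; exact h5
  choose nxt hnxt using step
  let s0 : {p : Lang × Set (ℕ × ℕ) // EI P n0 (Jn 0) p.1 p.2} :=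
    ⟨(codeR P.R, ∅), start_EI hP hnum h8⟩
  let sq : ∀ i, {p : Lang × Set (ℕ × ℕ) // EI P n0 (Jn i) p.1 p.2} :=
    fun i => Nat.rec s0 (fun i s => nxt i s) i
  have hsq : ∀ i, sq (i + 1) = nxt i (sq i) := fun i => rfl
  let On : ℕ → Lang := fun i => (sq i).1.1
  have hext : ∀ i, Ext2 (Nn i) (On i) (On (i + 1)) := by
    intro i
    show Ext2 (Nn i) (sq i).1.1 (sq (i + 1)).1.1
    rw [hsq]
    exact (hnxt i (sq i)).2.1
  obtain ⟨O, hO⟩ := limit2 Nn Nn_ge Nn_mono On hext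
  have hlow : ∀ i, ∀ w : Str, w.length < Nn i → O w = On i w := fun i w hw =>
    hO i w (lt_of_le_of_lt (key2_le w) hw)
  refine ⟨n0, O, ?_, ?_, ?_, ?_⟩
  · -- `R` is coded
    intro x
    have h1 : (posR x).length < Nn ((posR x).length + 1) := by
      have := Nn_ge ((posR x).length + 1)
      omega
    rw [hlow _ _ h1]
    by_contra hcon
    have h2 : On ((posR x).length + 1) (posR x) ≠ codeR P.R (posR x) := by
      intro h
      rw [h] at hcon
      exact hcon ((codeR_pos P.R).2.2 x)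
    exact codeR_out _ x ((sq ((posR x).length + 1)).2.ins _ h2)
  · -- the goals
    intro g
    obtain ⟨i, hi⟩ : ∃ i, i = Nat.pair g (J0 g) := ⟨_, rfl⟩
    have h1 : i.unpair.1 = g := by rw [hi, Nat.unpair_pair]
    have h2 : J0 g ≤ Jn i := by
      have h3 : J0 g ≤ i := by rw [hi]; exact Nat.right_le_pair _ _
      exact h3.trans (Jn_ge i).2
    have h4 := (hnxt i (sq i)).2.2.2
    rw [h1] at h4
    exact h4 h2 O fun w hw => hlow (i + 1) w hw
  · -- the entries
    intro i j hcor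
    have hnk : ∀ t, ((i, j) : ℕ × ℕ) ∉ (sq t).1.2 := by
      intro t hk
      have h1 := (sq t).2.kil _ hk
      obtain ⟨x, -, hx⟩ := kilN_ext (hO t) h1
      exact hx (hcor x)
    obtain ⟨t1, ht1⟩ : ∃ t1, t1 = 4 * ((i + 2) * (j + 2)) := ⟨_, rfl⟩
    refine ⟨Nn t1, fun e hi hj ha hadq z => ?_⟩
    have hpr : pr e = (i, j) := by unfold pr; rw [hi, hj]
    have hae : ia e ≤ e := by
      unfold ia
      exact (Nat.unpair_right_le _).trans ((Nat.unpair_right_le _).trans (Nat.unpair_right_le _))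
    have hbig : Nn t1 ≤ (z.length + 2) ^ (2 * e) := by
      calc Nn t1 ≤ 2 * e := by omega
        _ ≤ 2 ^ (2 * e) := (Nat.lt_two_pow_self).le
        _ ≤ (z.length + 2) ^ (2 * e) := Nat.pow_le_pow_left (by omega) _
    -- the epoch of the entry
    have hex : ∃ t, (z.length + 2) ^ (2 * e) < Nn (t + 1) := by
      refine ⟨(z.length + 2) ^ (2 * e), ?_⟩
      have := Nn_ge ((z.length + 2) ^ (2 * e) + 1)
      omega
    have hspec := Nat.find_spec hex
    obtain ⟨t, ht⟩ : ∃ t, t = Nat.find hex := ⟨_, rfl⟩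
    rw [← ht] at hspec
    have hle : t1 ≤ t := by
      by_contra hlt
      have h1 : Nn (t + 1) ≤ Nn t1 := Nn_mono (by omega)
      omega
    have hlow2 : Nn t ≤ (z.length + 2) ^ (2 * e) := by
      rcases Nat.eq_zero_or_pos t with h0 | h0
      · have h1 : t1 = t := by omega
        rw [← h1]; exact hbig
      · have h1 := Nat.find_min hex (m := t - 1) (by omega)
        have h2 : t - 1 + 1 = t := by omega
        rw [h2] at h1
        omega
    have h3 := (hnxt t (sq t)).2.2.1 e z hadq (by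
      rw [hpr]
      show 4 * ((i + 2) * (j + 2)) ≤ Jn t
      have := (Jn_ge t).2
      omega) (by
      rw [hpr, ← hsq]
      exact hnk (t + 1)) hlow2 hspec
    rw [← hsq] at h3
    have h2e : 2 ≤ e := by
      have h4 := hadq.1
      have h5 : 3 * 3 * 3 ≤ (2 * iN e + 3) * (iC e + 3) * (iM e + 3) :=
        Nat.mul_le_mul (Nat.mul_le_mul (by omega) (by omega)) (by omega)
      omega
    exact goodN_good (goodN_ext (hO (t + 1)) h2e hspec h3)
  · -- the games
    intro g hg ht C hC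
    obtain ⟨C', hC', hw⟩ := ABO.exists_within C (P.t g) hC
    have hdd : P.t g ≤ dd (lv P g) := (ABO.nn_spec (P.t g)).2
    obtain ⟨i, hi⟩ : ∃ i, i = dd (lv P g) + 1 := ⟨_, rfl⟩
    have hNi : dd (lv P g) < Nn i := by
      have := Nn_ge i
      omega
    have hmem : (fun ω : X (P.G g).s => cTree (P.G g) C' ω.1) ∈
        CircF (P.G g) (2 ^ uu (Jn i) (lv P g)) (dd (lv P g)) := by
      refine ⟨C', ABO.within_mono hC' ?_ hdd, rfl⟩
      have := (uu_ge (hnum _ hg) (Jn i)).2.2.1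
      omega
    have h4 := (sq i).2.db g hg _ hmem
    have h5 : (P.G g).count O C = hits (fun _ => [true])
        (fun ω : X (P.G g).s => cTree (P.G g) C' ω.1) (On i) := by
      rw [ABO.count_eq]
      apply ABO.hits_eq
      intro ω
      rw [ABO.cTree_eval, ← hw, ← ABO.cTree_eval]
      apply DT.eval_congr _ _ (ABO.circF_bounds hmem ω).2
      intro w hw'
      exact hlow i w (lt_of_le_of_lt hw' hNi)
    rw [h5]
    refine h4.le.trans ?_
    show (P.v g + eta (Jn i) (lv P g)) * 2 ^ (P.G g).s ≤ _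
    apply mul_le_mul_of_nonneg_right _ (by positivity)
    have h6 : eta (Jn i) (lv P g) ≤ 1 / (P.t g : ℝ) := by
      have h7 : (0 : ℝ) < P.t g := by exact_mod_cast ht
      have h8 : (P.t g : ℝ) ≤ 2 ^ Lam (lv P g) := by exact_mod_cast hdd
      have h9 := one_div_le_one_div_of_le h7 h8
      refine le_trans ?_ h9
      unfold eta
      rw [one_div_pow]
      apply one_div_le_one_div_of_le (by positivity)
      exact pow_le_pow_right₀ (by norm_num) (by omega)
    linarith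

/-- Above every oracle. -/
theorem main_ABI (dh : DepthHierarchy) (R : Lang) (G : ℕ → Game) (t : ℕ → ℕ)
    (hs : ∀ j, (G j).s ≤ t j) (hfin : ∀ T, {j | t j ≤ T}.Finite)
    (hcnt : ∀ T, {j | t j ≤ T}.ncard ≤ 2 ^ T) :
    ∃ O V : Lang,
      (∀ x : Str, O (if x.length % 2 = 1 then false :: false :: x
        else false :: true :: (x ++ [false])) = R x) ∧
      (∀ k, ∃ L, InSig O (k + 1) L ∧ ¬ InSig O k L) ∧
      InNP O V ∧ ¬ InNP O (fun x => !V x) ∧ ManyOneComplete O V ∧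
      (∀ C, InNP O C → TuringReducible O V C → ManyOneComplete O C) ∧
      (∀ C, TuringComplete O C → ManyOneComplete O C) ∧
      {j | ¬ ∀ v : ℝ, Hard R (G j) (t j ^ (Nat.log 2 (Nat.log 2 (t j))) ^ 4) v →
        Hard O (G j) (t j) (v + 1 / t j)}.Finite := by
  classical
  obtain ⟨T0, hT0⟩ := ABO.kappa_bound
  let P : Par := ⟨R, G, t, fun j => if T0 ≤ t j then
    ABO.valG R (G j) (t j ^ (Nat.log 2 (Nat.log 2 (t j))) ^ 4) else 1⟩
  have hP : P.OK := by
    refine ⟨hs, hfin, hcnt, ?_, ?_, ?_⟩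
    · intro j
      show 0 ≤ if T0 ≤ t j then _ else _
      split_ifs
      · exact ABO.valG_nonneg _ _ _
      · exact zero_le_one
    · intro j
      show (if T0 ≤ t j then _ else _) ≤ 1
      split_ifs
      · exact ABO.valG_le _ _ _
      · exact le_rfl
    · intro j
      show Hard R (G j) (2 ^ (ABO.nn (t j) - 2)) (if T0 ≤ t j then _ else _)
      split_ifs with h
      · exact (ABO.hard_valG _ _ _).mono (hT0 _ h)
      · exact ABO.hard_one _ _ _
  obtain ⟨n0, O, h1, h2, h3, h4⟩ := limit_all dh hP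
  obtain ⟨h5, h6, h7⟩ := collapse2 h3
  refine ⟨O, CK.V O, h1, ?_, NPC.inNP_V O, ?_, h5, h6, h7, ?_⟩
  · apply ph_infinite
    intro k
    refine ⟨NPC.HQ k O, NPC.HQ_sig k O, fun s hs => ?_⟩
    have h8 := h2 (Nat.pair (k + 1) (Encodable.encode s))
    unfold NPC.phgoal at h8
    rw [if_neg (by rw [Nat.unpair_pair]; exact Nat.succ_ne_zero k)] at h8
    simp only [Nat.unpair_pair, Encodable.encodek, Option.getD_some, Nat.add_sub_cancel] at h8
    obtain ⟨w, hw⟩ := h8
    exact hw (by rw [hs])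
  · intro hN
    obtain ⟨i, hi⟩ := exists_NL hN
    have h8 := h2 (Nat.pair 0 i)
    unfold NPC.phgoal at h8
    rw [if_pos (by rw [Nat.unpair_pair])] at h8
    simp only [Nat.unpair_pair] at h8
    obtain ⟨x, hx⟩ := h8
    exact hx (congrFun hi x)
  · -- the games
    refine (hfin (max T0 (max 1 (dd (n0 + 16))))).subset ?_
    intro j hj
    show t j ≤ _
    by_contra hcon
    rw [not_le] at hcon
    apply hj
    have h8 : T0 ≤ t j := (le_max_left _ _).trans hcon.le
    have h9 : 1 ≤ t j := ((le_max_left _ _).trans (le_max_right _ _)).trans hcon.le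
    have h10 : dd (n0 + 16) < t j := lt_of_le_of_lt
      ((le_max_right _ _).trans (le_max_right _ _)) hcon
    have h11 : n0 ≤ lv P j := by
      by_contra hlt
      rw [not_le] at hlt
      have h5 : t j ≤ dd (ABO.nn (t j)) := (ABO.nn_spec (t j)).2
      have h6 : ABO.nn (t j) < n0 := hlt
      have h7 : Lam (ABO.nn (t j)) ≤ Lam (n0 + 16) :=
        TD.Lam_mono (ABO.nn_spec (t j)).1 (by omega)
      have h8 : dd (ABO.nn (t j)) ≤ dd (n0 + 16) := Nat.pow_le_pow_right (by norm_num) h7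
      omega
    intro v hv C hC
    have h12 := h4 j h11 h9 C hC
    have h13 : P.v j ≤ v := by
      show (if T0 ≤ t j then _ else _) ≤ v
      rw [if_pos h8]
      exact ABO.valG_le_of_hard hv
    refine h12.trans ?_
    apply mul_le_mul_of_nonneg_right _ (by positivity)
    show P.v j + 1 / (t j : ℝ) ≤ v + 1 / (t j : ℝ)
    linarith

end Pool.Agent.ABI
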