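import Pool.Agent.Lib_helper27.ABIF.Epoch

/-!
# The next epoch, with a goal
-/

set_option autoImplicit false

namespace Pool.Agent.ABI

open Pool.Agent.CK Pool.Agent.PHS
open Pool.Agent.NPC (Lit St lw tw Cert Term Rst Comp res Stuck RS wt pw GoodRoot HBig te hx NC labs
  rv rq)
open Pool.Agent.ABO (Par Lvl lev CircF hits Fml Gate Circuit Game Hard Desc cst cTree gsz)
open Pool.Agent.TD.IS (PosI Stg patchI simI)
open Pool.Agent.TD (Lam dd)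

theorem lt_two_two (J : ℕ) : J < 2 ^ 2 ^ J :=
  lt_trans (Nat.lt_two_pow_self (n := J)) (Nat.lt_two_pow_self (n := 2 ^ J))

/-- a free slot of any size -/
theorem exists_slot {Os O : Lang} {J N : ℕ} {Kd : Set (ℕ × ℕ)} {A : Fam}
    (hA : Ep Os O J N J Kd A) {b : ℕ} (h1 : N ≤ 2 * b + 2) (h2 : 2 * b + 2 < Lj N J) :
    ∃ x ∈ A.R, x.length = b := by
  by_contra hcon
  push Not at hcon
  have h3 := hA.cnt b h1 h2
  have h4 : (A.R.filter fun r => r.length = b) = ∅ := Finset.filter_eq_empty_iff.2 fun r hr => hcon r hr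
  rw [h4, Finset.card_empty, Nat.mul_zero] at h3
  have := Nat.one_le_two_pow (n := b)
  omega


/-- numbers for the goal of level `0` -/
theorem num_NP (i : ℕ) {J N : ℕ} (hJ : 4 * i + 20 ≤ J) (hN : N = 2 ^ 2 ^ J) :
    (N + 2) ^ (i + 2) ≤ Lj N J ∧ (N + 2) ^ (2 * i + 2) < 2 ^ (N / 4) ∧ 2 * N + 2 < Lj N J := by
  have h1 : J < 2 ^ J := Nat.lt_two_pow_self
  have h4 : 4 ≤ N := by
    rw [hN]
    calc 4 = 2 ^ 2 := by norm_num
      _ ≤ 2 ^ 2 ^ J := Nat.pow_le_pow_right (by norm_num) (by omega)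
  have h2 : N + 2 ≤ N ^ 2 := by nlinarith
  have h3 : ∀ a, 2 * a ≤ 2 ^ J → (N + 2) ^ a ≤ N ^ 2 ^ J := by
    intro a ha
    calc (N + 2) ^ a ≤ (N ^ 2) ^ a := Nat.pow_le_pow_left h2 a
      _ = N ^ (2 * a) := (pow_mul _ _ _).symm
      _ ≤ N ^ 2 ^ J := Nat.pow_le_pow_right (by omega) ha
  refine ⟨h3 _ (by omega), ?_, ?_⟩
  · have h5 : (N + 2) ^ (2 * i + 2) ≤ 2 ^ (2 ^ J * (4 * i + 4)) := by
      calc (N + 2) ^ (2 * i + 2) ≤ (N ^ 2) ^ (2 * i + 2) := Nat.pow_le_pow_left h2 _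
        _ = N ^ (4 * i + 4) := by rw [← pow_mul]; congr 1; ring
        _ = 2 ^ (2 ^ J * (4 * i + 4)) := by rw [hN, ← pow_mul]
    refine lt_of_le_of_lt h5 (Nat.pow_lt_pow_right (by norm_num) ?_)
    have h6 : 2 * J + 2 < 2 ^ J := by
      have : ∀ m : ℕ, 2 * (m + 4) + 2 < 2 ^ (m + 4) := by
        intro m
        induction m with
        | zero => norm_num
        | succ m ih =>
          have : 2 ^ (m + 1 + 4) = 2 * 2 ^ (m + 4) := by ring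
          omega
      obtain ⟨m, rfl⟩ := Nat.exists_eq_add_of_le (show 4 ≤ J by omega)
      have := this m
      rw [Nat.add_comm m 4] at this
      exact this
    have h7 : 2 ^ J * (4 * i + 4) < 2 ^ J * 2 ^ J := Nat.mul_lt_mul_of_pos_left (by omega) (by positivity)
    have h8 : 4 * (2 ^ J * 2 ^ J) ≤ N := by
      rw [hN]
      calc 4 * (2 ^ J * 2 ^ J) = 2 ^ (2 * J + 2) := by ring
        _ ≤ 2 ^ 2 ^ J := Nat.pow_le_pow_right (by norm_num) h6.le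
    omega
  · have h5 : (N + 2) ^ 2 ≤ N ^ 2 ^ J := h3 2 (by omega)
    have h6 : 2 * N + 2 < (N + 2) ^ 2 := by nlinarith
    exact lt_of_lt_of_le h6 h5

/-- numbers for the other goals -/
theorem num_PH (k C m0 : ℕ) {J N : ℕ} (hJ : 16 * k + C + m0 + 20 ≤ J) (hN : N = 2 ^ 2 ^ J) :
    m0 ≤ N ∧ N ^ C ≤ Lj N J ∧ 2 * (4 * ((2 * k + 1) * N)) + 2 < Lj N J := by
  have h1 : J < 2 ^ J := Nat.lt_two_pow_self
  have h2 : J < N := by rw [hN]; exact lt_two_two J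
  refine ⟨by omega, Nat.pow_le_pow_right (by omega) (by omega), ?_⟩
  have h3 : N ^ 3 ≤ Lj N J := Nat.pow_le_pow_right (by omega) (by omega)
  refine lt_of_lt_of_le ?_ h3
  have h4 : 2 * (4 * ((2 * k + 1) * N)) + 2 = (16 * k + 8) * N + 2 := by ring
  rw [h4]
  have h5 : (16 * k + 8) * N + 2 < N * N := by
    have h6 : (16 * k + 10) * N ≤ N * N := Nat.mul_le_mul_right _ (by omega)
    have h7 : (16 * k + 10) * N = (16 * k + 8) * N + 2 * N := by ring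
    omega
  have h8 : N * N ≤ N ^ 3 := by
    calc N * N = N ^ 2 := by ring
      _ ≤ N ^ 3 := Nat.pow_le_pow_right (by omega) (by norm_num)
  omega

open Classical in
/-- The next epoch. -/
theorem next_epoch (dh : PHS.DepthHierarchy) (g : ℕ) : ∃ J0 : ℕ, ∀ {P : Par}, P.OK →
    ∀ {n0 : ℕ}, (∀ n, n0 ≤ n → NumL n) → ∀ {J : ℕ}, 16 ≤ J → ∀ {O : Lang} {Kd : Set (ℕ × ℕ)},
      EI P n0 J O Kd → ∃ (O' : Lang) (Kd' : Set (ℕ × ℕ)), Kd ⊆ Kd' ∧ Ext2 (2 ^ 2 ^ J) O O' ∧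
        EI P n0 (2 * J) O' Kd' ∧
        (∀ e z, Adq e → PairIn J (pr e) → pr e ∉ Kd' → 2 ^ 2 ^ J ≤ (z.length + 2) ^ (2 * e) →
          (z.length + 2) ^ (2 * e) < 2 ^ 2 ^ (2 * J) → GoodN (2 ^ 2 ^ (2 * J)) O' e z) ∧
        (J0 ≤ J → ∀ O'' : Lang, (∀ w : Str, w.length < 2 ^ 2 ^ (2 * J) → O'' w = O' w) →
          NPC.phgoal g O'') := by
  -- the general construction
  have main : ∀ {P : Par}, P.OK → ∀ {n0 : ℕ}, (∀ n, n0 ≤ n → NumL n) → ∀ {J : ℕ}, 16 ≤ J →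
      ∀ {O : Lang} {Kd : Set (ℕ × ℕ)}, EI P n0 J O Kd → ∀ b, 2 ^ 2 ^ J ≤ 2 * b + 2 →
      2 * b + 2 < Lj (2 ^ 2 ^ J) J → ∃ (A : Fam) (x : Str) (lab : Str → Str), x ∈ A.R ∧
        x.length = b ∧ (∀ κ : Str, κ.length = x.length / 4 →
          lab κ ∈ A.H x ∧ (lab κ).take κ.length = κ) ∧ ∀ v : Str → Bool, ∃ ω : St,
          (∀ p, ω p = true ↔ p.1 = x ∧ ∃ κ : Str, κ.length = x.length / 4 ∧ lab κ = p.2 ∧
            v κ = true) ∧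
          ∃ Kd' : Set (ℕ × ℕ), Kd ⊆ Kd' ∧ Ext2 (2 ^ 2 ^ J) O (A.F ω) ∧
          EI P n0 (2 * J) (A.F ω) Kd' ∧
          ∀ e z, Adq e → PairIn J (pr e) → pr e ∉ Kd' → 2 ^ 2 ^ J ≤ (z.length + 2) ^ (2 * e) →
            (z.length + 2) ^ (2 * e) < 2 ^ 2 ^ (2 * J) →
              GoodN (2 ^ 2 ^ (2 * J)) (A.F ω) e z := by
    intro P hP n0 hn0 J hJ O Kd h b hb1 hb2
    obtain ⟨A, Kd', hK, hA, -, hr⟩ := epoch_fam hP hn0 hJ h J le_rfl
    obtain ⟨x, hx, hxb⟩ := exists_slot hA hb1 hb2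
    obtain ⟨lab, hlab, hend⟩ := epoch_end hP hn0 hJ h hA hr x hx
    refine ⟨A, x, lab, hx, hxb, hlab, fun v => ?_⟩
    refine ⟨fun p => decide (p.1 = x ∧ ∃ κ : Str, κ.length = x.length / 4 ∧ lab κ = p.2 ∧
      v κ = true), fun p => by simp, Kd', hK, ?_⟩
    apply hend
    intro p hp
    rw [decide_eq_true_eq] at hp
    obtain ⟨h1, κ, h2, h3, -⟩ := hp
    exact ⟨h1, κ, h2, h3⟩
  -- without goal
  have triv : ∀ {P : Par}, P.OK → ∀ {n0 : ℕ}, (∀ n, n0 ≤ n → NumL n) → ∀ {J : ℕ}, 16 ≤ J →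
      ∀ {O : Lang} {Kd : Set (ℕ × ℕ)}, EI P n0 J O Kd →
      ∃ (O' : Lang) (Kd' : Set (ℕ × ℕ)), Kd ⊆ Kd' ∧ Ext2 (2 ^ 2 ^ J) O O' ∧
        EI P n0 (2 * J) O' Kd' ∧
        (∀ e z, Adq e → PairIn J (pr e) → pr e ∉ Kd' → 2 ^ 2 ^ J ≤ (z.length + 2) ^ (2 * e) →
          (z.length + 2) ^ (2 * e) < 2 ^ 2 ^ (2 * J) → GoodN (2 ^ 2 ^ (2 * J)) O' e z) := by
    intro P hP n0 hn0 J hJ O Kd h
    have h3 : 2 * 2 ^ 2 ^ J + 2 < Lj (2 ^ 2 ^ J) J := by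
      have h4 := ep_small hJ rfl
      have h1 : J < 2 ^ J := Nat.lt_two_pow_self
      have h5 : (2 ^ 2 ^ J) ^ 2 ≤ Lj (2 ^ 2 ^ J) J :=
        Nat.pow_le_pow_right (by omega) (by omega)
      nlinarith [h4.1]
    obtain ⟨A, x, lab, hx, hxb, hlab, hv⟩ := main hP hn0 hJ h (2 ^ 2 ^ J) (by omega) h3
    obtain ⟨ω, -, Kd', h5, h6, h7, h8⟩ := hv fun _ => false
    exact ⟨A.F ω, Kd', h5, h6, h7, h8⟩
  by_cases hg : g.unpair.1 = 0
  · refine ⟨4 * g.unpair.2 + 20, ?_⟩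
    intro P hP n0 hn0 J hJ O Kd h
    by_cases hJ0 : 4 * g.unpair.2 + 20 ≤ J
    · obtain ⟨h1, h2, h3⟩ := num_NP g.unpair.2 hJ0 rfl
      obtain ⟨A, x, lab, hx, hxb, hlab, hv⟩ := main hP hn0 hJ h (2 ^ 2 ^ J) (by omega) h3
      obtain ⟨v, hv1⟩ := end_NP g.unpair.2 (Lj (2 ^ 2 ^ J) J) A x lab hx (by rw [hxb]; exact h1)
        hlab (by rw [hxb]; exact h2)
      obtain ⟨ω, hω, Kd', h5, h6, h7, h8⟩ := hv v
      refine ⟨A.F ω, Kd', h5, h6, h7, h8, fun _ O'' hO'' => ?_⟩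
      have e : NPC.phgoal g = fun O => ∃ x, NL g.unpair.2 O x ≠ !(CK.V O x) := by
        funext O
        exact if_pos hg
      rw [e]
      exact hv1 ω hω O'' fun w hw => hO'' w (by rw [← lj_last]; exact hw)
    · obtain ⟨O', Kd', h5, h6, h7, h8⟩ := triv hP hn0 hJ h
      exact ⟨O', Kd', h5, h6, h7, h8, fun hc => absurd hc hJ0⟩
  · obtain ⟨k, hk⟩ : ∃ k, k = g.unpair.1 - 1 := ⟨_, rfl⟩
    obtain ⟨C, m0, hkill⟩ := end_PH dh k
      ((Encodable.decode (α := List ℕ) g.unpair.2).getD [])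
    refine ⟨16 * k + C + m0 + 20, ?_⟩
    intro P hP n0 hn0 J hJ O Kd h
    by_cases hJ0 : 16 * k + C + m0 + 20 ≤ J
    · obtain ⟨h1, h2, h3⟩ := num_PH k C m0 hJ0 rfl
      have hpos : 2 ^ 2 ^ J ≤ (2 * k + 1) * 2 ^ 2 ^ J := Nat.le_mul_of_pos_left _ (by omega)
      obtain ⟨A, x, lab, hx, hxb, hlab, hv⟩ := main hP hn0 hJ h
        (4 * ((2 * k + 1) * 2 ^ 2 ^ J)) (by omega) h3
      have hx4 : x.length / 4 = (2 * k + 1) * 2 ^ 2 ^ J := by rw [hxb]; omega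
      obtain ⟨v, hv1⟩ := hkill (2 ^ 2 ^ J) h1 (Lj (2 ^ 2 ^ J) J) A x lab h2 hx hxb
        (fun κ hκ => hlab κ (by rw [hκ, hx4]))
      obtain ⟨ω, hω, Kd', h5, h6, h7, h8⟩ := hv v
      refine ⟨A.F ω, Kd', h5, h6, h7, h8, fun _ O'' hO'' => ?_⟩
      have e : NPC.phgoal g = fun O => ∃ w, SL (g.unpair.1 - 1)
          ((Encodable.decode (α := List ℕ) g.unpair.2).getD []) O w ≠
            NPC.HQ (g.unpair.1 - 1) O w := by
        funext O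
        exact if_neg hg
      rw [e, ← hk]
      rw [hx4] at hω
      exact hv1 ω hω O'' fun w hw => hO'' w (by rw [← lj_last]; exact hw)
    · obtain ⟨O', Kd', h5, h6, h7, h8⟩ := triv hP hn0 hJ h
      exact ⟨O', Kd', h5, h6, h7, h8, fun hc => absurd hc hJ0⟩

end Pool.Agent.ABI
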