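import Pool.Agent.Lib_helper27.ABIF.All

/-!
# One stage
-/

set_option autoImplicit false

namespace Pool.Agent.ABI

open Pool.Agent.CK
open Pool.Agent.NPC (Lit St lw tw Cert Term Rst Comp res Stuck RS wt pw GoodRoot HBig te hx NC labs
  rv rq)
open Pool.Agent.ABO (Par Lvl lev CircF hits Fml Gate Circuit Game Hard Desc cst cTree gsz)
open Pool.Agent.TD.IS (PosI Stg patchI simI)
open Pool.Agent.TD (Lam dd)

/-- positions of the entries -/
def Eit (items : Finset (ℕ × Str)) : Set Str :=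
  {w | ∃ it ∈ items, ∃ b c, w = taddr it.1 it.2 b c}

theorem alen_le_taddr (e : ℕ) (z : Str) (b : ℕ) (c : Bool) :
    alen e z ≤ (taddr e z b c).length := by
  unfold taddr ones
  simp only [List.length_cons, List.length_append, List.length_replicate]
  omega

theorem sub_tab {C B : Fam} {items : Finset (ℕ × Str)} {tv : ℕ × Str → Str} (hR : B.R = C.R)
    (hH : B.H = C.H) (hF : B.F = tabF C.F items tv) : Sub (Eit items) B C := by
  refine ⟨hR.le, fun r _ => by rw [hH], id, fun ω w hw => ?_, fun r _ l _ ω => rfl⟩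
  rw [hF]
  exact tabF_other C.F items tv ω w fun it hit b c he => hw ⟨it, hit, b, c, he⟩

theorem eit_len {L : ℕ} {items : Finset (ℕ × Str)} (h : ∀ it ∈ items, L ≤ alen it.1 it.2) :
    ∀ w ∈ Eit items, L ≤ w.length := by
  rintro w ⟨it, hit, b, c, rfl⟩
  exact (h it hit).trans (alen_le_taddr _ _ _ _)

theorem goodSlot_sub {L : ℕ} {A B : Fam} (h : Sub ∅ B A) {m : ℕ × ℕ} {r : Str} (hr : r ∈ B.R)
    (hH : B.H = A.H) (hg : GoodSlot L A m r) : GoodSlot L B m r := by
  obtain ⟨q, S, h1, h2, h3⟩ := hg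
  refine ⟨q, S, h1, h2, sub_hGood h (by simp) hr ?_ h3⟩
  rw [hH]
  exact h3.1

/-- the condition about the changed positions in `Ep` -/
theorem tdec_ne_sdec {e : ℕ} {z : Str} {b : ℕ} {c : Bool} : ∃ p, tdec (taddr e z b c) = some p :=
  ⟨((e, z), (b, c)), tdec_taddr e z b c⟩

theorem bit_true {q : Str} {b : ℕ} {c : Bool} (h : bit q (b, c) = true) : b < q.length := by
  unfold bit at h
  by_contra hb
  cases c
  · simp at h
    omega
  · simp only [if_true] at h
    rw [List.getD_eq_default _ _ (by rw [List.length_reverse]; omega)] at h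
    exact Bool.noConfusion h

open Classical in
/-- One stage of an epoch. -/
theorem stage {P : Par} (hP : P.OK) {n0 : ℕ} (hn0 : ∀ n, n0 ≤ n → NumL n) {J N j : ℕ}
    (hJ : 16 ≤ J) (hN : N = 2 ^ 2 ^ J) (hj : j < J) {Os O : Lang}
    (hOs : ∀ w, (∃ p, tdec w = some p) → Os w = false) {Kd : Set (ℕ × ℕ)} {A : Fam}
    (hA : Ep Os O J N j Kd A)
    (hRB : RB P n0 J N j A (ux (J + j) 44) (fun n => 2 * eta (J + j) n)
      (fun n => 2 ^ ux (J + j) 54 n)) :
    ∃ (B : Fam) (Kd' : Set (ℕ × ℕ)), Kd ⊆ Kd' ∧ Ep Os O J N (j + 1) Kd' B ∧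
      RB P n0 J N (j + 1) B (ux (J + j) 0) (fun n => 18 * eta (J + j) n)
        (fun n => 2 ^ ux (J + j) 10 n) := by
  obtain ⟨L, hL⟩ : ∃ L, L = Lj N j := ⟨_, rfl⟩
  have hN1 : 1 ≤ N := by rw [hN]; exact Nat.one_le_two_pow
  -- restriction
  obtain ⟨B1, hB1s, hB1r, hB1c, hB1g⟩ := step_restr hP hn0 hJ hN hj A hA.hU hA.cnt hA.cls hRB
  -- kills
  obtain ⟨Act, hAct⟩ : ∃ Act : Finset (ℕ × ℕ), ∀ m, m ∈ Act ↔ PairIn J m ∧ m ∉ Kd := by
    refine ⟨(pairIn_card J).1.toFinset.filter (fun m => m ∉ Kd), fun m => ?_⟩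
    rw [Finset.mem_filter, Set.Finite.mem_toFinset]
    rfl
  have hB1U : B1.R ⊆ Us J N := hB1s.1.trans hA.hU
  obtain ⟨C, Q, hCs, hQ, hCb, hCr, hCk, hCc, hCg⟩ :=
    step_clean hn0 hJ hN hj B1 hB1U Act (fun m hm => ((hAct m).1 hm).1) hB1r hB1c hB1g
  have hCU : C.R ⊆ Us J N := hCs.1.trans hB1U
  set Kd' : Set (ℕ × ℕ) := Kd ∪ ↑Q with hKd'
  -- the entries
  obtain ⟨items, hitems⟩ : ∃ items : Finset (ℕ × Str), ∀ it : ℕ × Str, it ∈ items ↔
      InBatch J N j it.1 it.2 ∧ pr it.1 ∉ Kd' := by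
    refine ⟨(batch_finite hJ hN hj).1.toFinset.filter (fun it => pr it.1 ∉ Kd'), fun it => ?_⟩
    rw [Finset.mem_filter, Set.Finite.mem_toFinset]
    rfl
  have hib : ∀ it ∈ items, InBatch J N j it.1 it.2 := fun it hit => ((hitems it).1 hit).1
  have hit : ∀ e (z z' : Str), z.length = z'.length → (e, z) ∈ items → (e, z') ∈ items := by
    intro e z z' hz h
    rw [hitems] at h ⊢
    obtain ⟨⟨h1, h2, h3, h4, h5, h6⟩, h7⟩ := h
    have ha : alen e z' = alen e z := by unfold alen; rw [hz]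
    refine ⟨⟨h1, h2, ?_, ?_, ?_, ?_⟩, h7⟩
    · show N ≤ (z'.length + 2) ^ (2 * e)
      rw [← hz]; exact h3
    · show (z'.length + 2) ^ (2 * e) < _
      rw [← hz]; exact h4
    · show _ ≤ alen e z'
      rw [ha]; exact h5
    · show alen e z' < _ ∨ _
      rw [ha]; exact h6
  -- ranges
  have hrange : ∀ it ∈ items, (sz N it.1 it.2 + 2) ^ ((iM it.1 + 2) * (iC it.1 + 2)) ≤ L ∧
      (it.2.length + 2) ^ (iN it.1 + 2) ≤ L ∧ (it.2.length + 2) ^ (iN it.1 + 2) ≤ sz N it.1 it.2 ∧
      NPC.sl it.1 it.2 ≤ sz N it.1 it.2 ∧ N ≤ sz N it.1 it.2 ∧ 2 * sz N it.1 it.2 + 2 < L ∧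
      L ≤ alen it.1 it.2 ∧ 2 ≤ it.1 := by
    intro it hi
    rw [hL]
    exact item_range hJ hN hj (hib it hi)
  -- good slots
  set Gd : (ℕ × ℕ) × ℕ → Finset Str := fun c =>
    C.R.filter fun r => r.length = c.2 ∧ GoodSlot L C c.1 r with hGd
  have hGd1 : ∀ c ∈ items.image (clsI N), 2 ^ c.2 ≤ 16 * Lj N j ^ 28 * (Gd c).card ∧
      ∀ r ∈ Gd c, r.length = c.2 := by
    intro c hc
    obtain ⟨it, hi, rfl⟩ := Finset.mem_image.1 hc
    obtain ⟨h1, -, -, -, h5, -, -, -⟩ := hrange it hi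
    have hm : pr it.1 ∈ Act \ Q := by
      rw [Finset.mem_sdiff, hAct]
      have h6 := ((hitems it).1 hi).2
      rw [hKd', Set.mem_union, not_or] at h6
      exact ⟨⟨(hib it hi).2.1, h6.1⟩, h6.2⟩
    refine ⟨?_, fun r hr => (Finset.mem_filter.1 hr).2.1⟩
    have h7 := hCg (pr it.1) hm (sz N it.1 it.2) (by omega) (by rw [← hL]; exact h1)
    have h8 := count_good hJ hN hj (by omega) h7
    rw [← hL] at h8 ⊢
    exact h8
  -- questions
  have hqS : ∀ (c : (ℕ × ℕ) × ℕ) (r : Str), ∃ qS : Str × Finset Str, r ∈ Gd c →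
      (qS.1.length + 2) ^ (c.1.1 + 2) ≤ (r.length + 2) ^ ((c.1.2 + 2) * (c.1.1 + 2)) ∧
      2 ^ (r.length / 2) ≤ L ^ 4 * qS.2.card ∧ HGood C c.1.1 r qS.1 qS.2 := by
    intro c r
    by_cases h : r ∈ Gd c
    · obtain ⟨q, S, h1, h2, h3⟩ := (Finset.mem_filter.1 h).2.2
      exact ⟨(q, S), fun _ => ⟨h1, h2, h3⟩⟩
    · exact ⟨([], ∅), fun h' => absurd h' h⟩
  choose qS hqS' using hqS
  obtain ⟨slot, hinj, hslot, htab⟩ := step_table hP hn0 hJ hN hj C hCU items hib hit Gd hGd1
    (fun c r => (qS c r).1) hCr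
  set tv : ℕ × Str → Str := fun it => (qS (clsI N it) (slot it)).1 with htv
  obtain ⟨D, hDR, hDH, hDF⟩ := addT C items tv
  have hDr := htab D hDH hDF
  have hDs : Sub (Eit items) D C := sub_tab hDR hDH hDF
  have hElen : ∀ w ∈ Eit items, L ≤ w.length :=
    eit_len fun it hi => (hrange it hi).2.2.2.2.2.2.1
  have hslR : ∀ it ∈ items, slot it ∈ C.R ∧ (slot it).length = sz N it.1 it.2 := by
    intro it hi
    have h := Finset.mem_filter.1 (hslot it hi)
    exact ⟨h.1, h.2.1⟩
  have hq1 : ∀ it ∈ items, ((tv it).length + 2) ^ (iC it.1 + 2) ≤ L := by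
    intro it hi
    have h1 := (hqS' (clsI N it) (slot it) (hslot it hi)).1
    rw [(hslR it hi).2] at h1
    exact h1.trans (hrange it hi).1
  have hDg : ∀ it ∈ items, HGood D (iC it.1) (slot it) (tv it) (qS (clsI N it) (slot it)).2 := by
    intro it hi
    obtain ⟨-, -, h3⟩ := hqS' (clsI N it) (slot it) (hslot it hi)
    refine sub_hGood hDs (fun w hw => (hq1 it hi).trans (hElen w hw)) ?_ ?_ h3
    · rw [hDR]; exact (hslR it hi).1
    · rw [hDH]; exact h3.1
  -- binding
  obtain ⟨B, hBs, hBR, hBH, hBeq, hBr⟩ := step_bind hP hn0 hJ hN hj D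
    (by rw [hDR]; exact hCU) items hib slot tv (fun it => (qS (clsI N it) (slot it)).2) hinj
    (fun it hi => by rw [hDR]; exact hslR it hi) hDg
    (fun it hi => by
      obtain ⟨-, h2, -⟩ := hqS' (clsI N it) (slot it) (hslot it hi)
      rw [(hslR it hi).2, hL] at h2
      exact h2) hDr
  have hBA : Sub (∅ ∪ (Eit items ∪ (∅ ∪ ∅))) B A :=
    sub_trans hBs (sub_trans hDs (sub_trans hCs hB1s))
  have hBA' : Sub (Eit items) B A := by simpa using hBA
  have hBC : Sub (Eit items) B C := by simpa using sub_trans hBs hDs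
  obtain ⟨g1, hg1, -⟩ := hBs.2.2
  obtain ⟨g2, hg2, -⟩ := hBA'.2.2
  have hBD : ∀ ω, B.F ω = D.F (g1 ω) := fun ω => funext fun w => hg1 ω w (by simp)
  have hBtab : ∀ it ∈ items, ∀ b c ω, B.F ω (taddr it.1 it.2 b c) = bit (tv it) (b, c) := by
    intro it hi b c ω
    rw [hBD, hDF]
    exact tabF_taddr C.F items tv (g1 ω) it hi b c
  refine ⟨B, Kd', Set.subset_union_left, ⟨?_, ?_, ?_, ?_, ?_, ?_, ?_⟩, hBr⟩
  · -- hU
    rw [hBR, hDR]
    exact Finset.sdiff_subset.trans hCU
  · -- cnt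
    intro b hb1 hb2
    set c := (items.filter fun it => sz N it.1 it.2 = b).card with hc
    have h1 := hCc b hb1 hb2
    have h2 := items_count hJ hN hj items hib hb1
    have h3 : (C.R.filter fun r => r.length = b).card ≤
        (B.R.filter fun r => r.length = b).card + c := by
      have h4 : (C.R.filter fun r => r.length = b) ⊆ (B.R.filter fun r => r.length = b) ∪
          (items.filter fun it => sz N it.1 it.2 = b).image slot := by
        intro r hr
        rw [Finset.mem_filter] at hr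
        rw [Finset.mem_union, Finset.mem_filter, Finset.mem_image, hBR, hDR, Finset.mem_sdiff]
        by_cases h5 : r ∈ items.image slot
        · obtain ⟨it, hi, rfl⟩ := Finset.mem_image.1 h5
          right
          refine ⟨it, Finset.mem_filter.2 ⟨hi, ?_⟩, rfl⟩
          rw [← (hslR it hi).2]
          exact hr.2
        · left
          exact ⟨⟨hr.1, h5⟩, hr.2⟩
      exact (Finset.card_le_card h4).trans ((Finset.card_union_le _ _).trans
        (Nat.add_le_add_left Finset.card_image_le _))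
    refine count_next hJ hN hj hb1 (h1.trans ?_) h2
    apply Nat.mul_le_mul_left
    omega
  · -- cls
    intro r hr κ hκ
    have h1 : r ∈ C.R := by
      rw [hBR, hDR] at hr
      exact (Finset.mem_sdiff.1 hr).1
    have h2 := hCb r h1 κ hκ
    rw [hBH, hDH]
    exact h2
  · -- ext
    intro ω w hw
    have h1 : w ∉ Eit items := by
      rintro ⟨it, hi, b, c, rfl⟩
      rw [key2_taddr _ _ _ _ (hrange it hi).2.2.2.2.2.2.2] at hw
      have := (hib it hi).2.2.1
      omega
    rw [hg2 ω w h1]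
    exact hA.ext (g2 ω) w hw
  · -- ins
    intro ω w hw
    by_cases h1 : w ∈ Eit items
    · obtain ⟨it, hi, b, c, rfl⟩ := h1
      rw [hBtab it hi, hOs _ tdec_ne_sdec] at hw
      have h2 : bit (tv it) (b, c) = true := by
        cases h : bit (tv it) (b, c)
        · exact absurd h hw
        · rfl
      have h3 := bit_true h2
      refine Or.inr ⟨it.1, it.2, b, c, (hrange it hi).2.2.2.2.2.2.2, (hib it hi).2.2.2.1, ?_, rfl⟩
      have h4 := hq1 it hi
      have h5 : (tv it).length + 2 ≤ ((tv it).length + 2) ^ (iC it.1 + 2) :=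
        Nat.le_self_pow (by omega) _
      have h6 : L ≤ Lj N J := by rw [hL]; exact lj_mono hN1 hj.le
      omega
    · rw [hg2 ω w h1] at hw
      exact hA.ins (g2 ω) w hw
  · -- good
    intro e z hd hk ω
    have hk' : pr e ∉ Kd := fun h => hk (Or.inl h)
    rcases done_succ hj hd with h | h
    · have hnot : (e, z) ∉ items := by
        intro hi
        have h1 := (hib _ hi).2.2.2.2.1
        rcases h.2.2.2.2 with h2 | h2
        · have h3 : Lj N j ≤ alen e z := h1
          omega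
        · omega
      have h1 : ∀ ω, GoodN (Lj N j) (B.F ω) e z := by
        apply sub_goodN hBA'
        · intro w hw
          refine ⟨by rw [← hL]; exact hElen w hw, ?_⟩
          rintro b c rfl
          obtain ⟨it, hi, b', c', he⟩ := hw
          have h2 := congrArg tdec he
          rw [tdec_taddr, tdec_taddr] at h2
          simp only [Option.some.injEq, Prod.mk.injEq] at h2
          apply hnot
          have h3 : (e, z) = it := Prod.ext h2.1.1 h2.1.2
          rw [h3]; exact hi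
        · exact hA.good e z h hk'
      exact goodN_mono (lj_mono hN1 (Nat.le_succ j)) (h1 ω)
    · have hi : (e, z) ∈ items := (hitems (e, z)).2 ⟨h, hk⟩
      have h1 := hrange _ hi
      have h2 := hq1 _ hi
      have h3 : L ≤ Lj N (j + 1) := by rw [hL]; exact lj_mono hN1 (Nat.le_succ j)
      exact ⟨tv (e, z), h2.trans h3, h1.2.1.trans h3, h2.trans h1.2.2.2.2.2.2.1,
        fun b c => hBtab (e, z) hi b c ω, hBeq (e, z) hi ω⟩
  · -- kil
    rintro m (hm | hm)
    · obtain ⟨x, hx, hw⟩ := hA.kil m hm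
      refine ⟨x, hx.trans (lj_mono hN1 (Nat.le_succ j)), ?_⟩
      refine sub_wrong hBA' (fun w hw' => ?_) hw
      refine hx.trans ?_
      rw [← hL]; exact hElen w hw'
    · obtain ⟨x, hx, hw⟩ := hCk m hm
      refine ⟨x, hx.trans (lj_mono hN1 (Nat.le_succ j)), ?_⟩
      refine sub_wrong hBC (fun w hw' => ?_) hw
      refine hx.trans ?_
      rw [← hL]; exact hElen w hw'

end Pool.Agent.ABI
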